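import Mathlib

/-!
Smallest convex hulls of `k` of the `α (k - 1)` points of a set in a rectangle of area one: the
points of a square grid are much better than the points of an `α × (k - 1)` grid.
-/

set_option autoImplicit false

open MeasureTheory Set

namespace Pool.Agent.Results.MP_6b0309_co.SquareGrids

theorem int_affine (a b c0 c1 : ℝ) : ∫ x in a..b, (c0 + c1 * x) = c0 * (b - a) + c1 * ((b ^ 2 - a ^ 2) / 2) := by
  have h1 : IntervalIntegrable (fun x : ℝ => c1 * x) volume a b :=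
    (by fun_prop : Continuous fun x : ℝ => c1 * x).intervalIntegrable a b
  rw [intervalIntegral.integral_add (by simp) h1]
  rw [intervalIntegral.integral_const, intervalIntegral.integral_const_mul, integral_id]
  simp [mul_comm]

/-- a convex set with given chords on consecutive vertical lines -/
theorem vol_ge {C : Set (ℝ × ℝ)} (hC : Convex ℝ C) {h : ℝ} (hh : 0 < h) {a b : ℕ}
    (l u : ℕ → ℝ) (hl : ∀ i, a ≤ i → i ≤ b → ((i : ℝ) * h, l i) ∈ C)
    (hu : ∀ i, a ≤ i → i ≤ b → ((i : ℝ) * h, u i) ∈ C)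
    (hlu : ∀ i, a ≤ i → i ≤ b → l i ≤ u i) :
    ENNReal.ofReal (∑ i ∈ Finset.Ico a b, h * ((u i - l i) + (u (i + 1) - l (i + 1))) / 2) ≤
      volume C := by
  let T : ℕ → Set (ℝ × ℝ) := fun i => regionBetween
    (fun x => l i + (l (i + 1) - l i) * ((x - i * h) / h))
    (fun x => u i + (u (i + 1) - u i) * ((x - i * h) / h)) (Ioc (i * h) ((i + 1) * h))
  have hmeas : ∀ i, MeasurableSet (T i) := by
    intro i
    refine measurableSet_regionBetween ?_ ?_ measurableSet_Ioc <;> fun_prop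
  have hsub : ∀ i ∈ Finset.Ico a b, T i ⊆ C := by
    intro i hi p hp
    rw [Finset.mem_Ico] at hi
    obtain ⟨hx, hy⟩ := hp
    obtain ⟨x, y⟩ := p
    simp only at hx hy
    obtain ⟨s, hs⟩ : ∃ s, s = (x - i * h) / h := ⟨_, rfl⟩
    rw [← hs] at hy
    have hxs : x = (i : ℝ) * h + s * h := by rw [hs]; field_simp; ring
    have hs0 : 0 ≤ s := by rw [hs]; exact div_nonneg (by linarith [hx.1]) hh.le
    have hs1 : s ≤ 1 := by
      rw [hs, div_le_one hh]
      have := hx.2
      linarith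
    have hL : ((x, l i + (l (i + 1) - l i) * s) : ℝ × ℝ) ∈ C := by
      have h1 := hC (hl i hi.1 hi.2.le) (hl (i + 1) (by omega) (by omega))
        (sub_nonneg.2 hs1) hs0 (by ring)
      convert h1 using 1
      ext
      · simp only [Prod.fst_add, Prod.smul_fst, smul_eq_mul]; push_cast; rw [hxs]; ring
      · simp only [Prod.snd_add, Prod.smul_snd, smul_eq_mul]; ring
    have hU : ((x, u i + (u (i + 1) - u i) * s) : ℝ × ℝ) ∈ C := by
      have h1 := hC (hu i hi.1 hi.2.le) (hu (i + 1) (by omega) (by omega))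
        (sub_nonneg.2 hs1) hs0 (by ring)
      convert h1 using 1
      ext
      · simp only [Prod.fst_add, Prod.smul_fst, smul_eq_mul]; push_cast; rw [hxs]; ring
      · simp only [Prod.snd_add, Prod.smul_snd, smul_eq_mul]; ring
    obtain ⟨hy1, hy2⟩ := hy
    set L := l i + (l (i + 1) - l i) * s
    set U := u i + (u (i + 1) - u i) * s
    have hLU : 0 < U - L := by linarith
    have h1 := hC hL hU (a := (U - y) / (U - L)) (b := (y - L) / (U - L))
      (div_nonneg (by linarith) hLU.le) (div_nonneg (by linarith) hLU.le)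
      (by field_simp; ring)
    convert h1 using 1
    ext
    · simp only [Prod.fst_add, Prod.smul_fst, smul_eq_mul]; field_simp; ring
    · simp only [Prod.snd_add, Prod.smul_snd, smul_eq_mul]; field_simp; ring
  have hdisj : Set.PairwiseDisjoint (↑(Finset.Ico a b) : Set ℕ) T := by
    intro i _ j _ hij
    rw [Function.onFun, Set.disjoint_left]
    rintro ⟨x, y⟩ ⟨h1, _⟩ ⟨h2, _⟩
    simp only [mem_Ioc] at h1 h2
    rcases Nat.lt_or_gt_of_ne hij with h3 | h3
    · have h4 : ((i : ℝ) + 1) ≤ j := by exact_mod_cast h3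
      nlinarith [h1.2, h2.1]
    · have h4 : ((j : ℝ) + 1) ≤ i := by exact_mod_cast h3
      nlinarith [h2.2, h1.1]
  have hvol : ∀ i ∈ Finset.Ico a b, volume (T i) =
      ENNReal.ofReal (h * ((u i - l i) + (u (i + 1) - l (i + 1))) / 2) := by
    intro i hi
    rw [Finset.mem_Ico] at hi
    have hc1 : Continuous fun x : ℝ => l i + (l (i + 1) - l i) * ((x - i * h) / h) := by fun_prop
    have hc2 : Continuous fun x : ℝ => u i + (u (i + 1) - u i) * ((x - i * h) / h) := by fun_prop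
    have hle : (i : ℝ) * h ≤ (i + 1) * h := by nlinarith
    rw [Measure.volume_eq_prod]
    rw [volume_regionBetween_eq_integral
      ((hc1.integrableOn_Icc (a := i * h) (b := (i + 1) * h)).mono_set Ioc_subset_Icc_self)
      ((hc2.integrableOn_Icc (a := i * h) (b := (i + 1) * h)).mono_set Ioc_subset_Icc_self)
      measurableSet_Ioc]
    · congr 1
      rw [← intervalIntegral.integral_of_le hle]
      have e1 : ∀ x : ℝ, ((fun x : ℝ => u i + (u (i + 1) - u i) * ((x - i * h) / h)) -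
          fun x : ℝ => l i + (l (i + 1) - l i) * ((x - i * h) / h)) x =
          ((u i - l i) - ((u (i + 1) - l (i + 1)) - (u i - l i)) * i) +
            (((u (i + 1) - l (i + 1)) - (u i - l i)) / h) * x := by
        intro x
        simp only [Pi.sub_apply]
        field_simp
        ring
      simp only [e1]
      rw [int_affine]
      field_simp
      ring
    · rintro x ⟨hx1, hx2⟩
      have hs0 : 0 ≤ (x - i * h) / h := div_nonneg (by linarith) hh.le
      have hs1 : (x - i * h) / h ≤ 1 := by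
        rw [div_le_one hh]
        linarith
      have h1 := hlu i hi.1 hi.2.le
      have h2 := hlu (i + 1) (by omega) (by omega)
      set s := (x - i * h) / h
      show l i + (l (i + 1) - l i) * s ≤ u i + (u (i + 1) - u i) * s
      nlinarith [mul_nonneg hs0 (sub_nonneg.2 h2), mul_nonneg (sub_nonneg.2 hs1) (sub_nonneg.2 h1)]
  rw [ENNReal.ofReal_sum_of_nonneg]
  · calc ∑ i ∈ Finset.Ico a b, ENNReal.ofReal (h * ((u i - l i) + (u (i + 1) - l (i + 1))) / 2)
        = ∑ i ∈ Finset.Ico a b, volume (T i) := Finset.sum_congr rfl fun i hi => (hvol i hi).symm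
      _ = volume (⋃ i ∈ Finset.Ico a b, T i) :=
          (measure_biUnion_finset hdisj fun i _ => hmeas i).symm
      _ ≤ volume C := measure_mono (Set.iUnion₂_subset hsub)
  · intro i hi
    rw [Finset.mem_Ico] at hi
    have h1 := hlu i hi.1 hi.2.le
    have h2 := hlu (i + 1) (by omega) (by omega)
    have : 0 ≤ h * ((u i - l i) + (u (i + 1) - l (i + 1))) := mul_nonneg hh.le (by linarith)
    linarith


/-- the points of the grid -/
noncomputable def gr (h : ℝ) (p : ℕ × ℕ) : ℝ × ℝ := ((p.1 : ℝ) * h, (p.2 : ℝ) * h)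

theorem gr_inj {h : ℝ} (hh : 0 < h) : Function.Injective (gr h) := by
  rintro ⟨a, b⟩ ⟨c, d⟩ he
  simp only [gr, Prod.mk.injEq] at he
  obtain ⟨h1, h2⟩ := he
  have h3 := mul_right_cancel₀ hh.ne' h1
  have h4 := mul_right_cancel₀ hh.ne' h2
  simp only [Prod.mk.injEq]
  exact ⟨by exact_mod_cast h3, by exact_mod_cast h4⟩

/-- the area of the convex hull of `k` points of the grid -/
theorem hull_ge {m : ℕ} (hm : 2 ≤ m) {S : Finset (ℕ × ℕ)}
    (hS : S ⊆ Finset.range m ×ˢ Finset.range m) {h : ℝ} (hh : h * (m - 1) = 1)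
    {C : Set (ℝ × ℝ)} (hC : Convex ℝ C) (hSC : ∀ p ∈ S, gr h p ∈ C) (hne : S.Nonempty) :
    ENNReal.ofReal (h ^ 2 * (S.card - m) - h) ≤ volume C := by
  classical
  have hm1 : (1 : ℝ) ≤ m - 1 := by
    have : (2 : ℝ) ≤ m := by exact_mod_cast hm
    linarith
  have hh0 : 0 < h := by
    by_contra hcon
    push Not at hcon
    nlinarith
  -- columns
  let c : ℕ → Finset ℕ := fun i => (Finset.range m).filter fun j => (i, j) ∈ S
  have hcard : ∑ i ∈ Finset.range m, (c i).card = S.card := by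
    have h1 : S.card = ∑ i ∈ Finset.range m, (S.filter fun p => p.1 = i).card := by
      refine Finset.card_eq_sum_card_fiberwise fun p hp => ?_
      exact (Finset.mem_product.1 (hS hp)).1
    rw [h1]
    refine Finset.sum_congr rfl fun i hi => ?_
    refine Finset.card_bij (fun j _ => (i, j)) ?_ ?_ ?_
    · intro j hj
      rw [Finset.mem_filter] at hj ⊢
      exact ⟨hj.2, rfl⟩
    · intro j _ j' _ he
      simpa using he
    · rintro ⟨x, y⟩ hp
      rw [Finset.mem_filter] at hp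
      obtain ⟨hp1, hp2⟩ := hp
      simp only at hp2
      subst hp2
      exact ⟨y, Finset.mem_filter.2 ⟨(Finset.mem_product.1 (hS hp1)).2, hp1⟩, rfl⟩
  obtain ⟨p0, hp0⟩ := hne
  let A : Finset ℕ := S.image Prod.fst
  have hA : A.Nonempty := ⟨p0.1, Finset.mem_image_of_mem _ hp0⟩
  obtain ⟨a, ha⟩ : ∃ a, a = A.min' hA := ⟨_, rfl⟩
  obtain ⟨b, hb⟩ : ∃ b, b = A.max' hA := ⟨_, rfl⟩
  have haA : a ∈ A := ha ▸ A.min'_mem hA
  have hbA : b ∈ A := hb ▸ A.max'_mem hA
  obtain ⟨⟨a', ya⟩, hpa, hpa'⟩ := Finset.mem_image.1 haA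
  obtain ⟨⟨b', yb⟩, hpb, hpb'⟩ := Finset.mem_image.1 hbA
  simp only at hpa' hpb'
  subst hpa' hpb'
  have hab : a' ≤ b' := by
    rw [ha]
    exact A.min'_le _ hbA
  have hbm : b' < m := Finset.mem_range.1 (Finset.mem_product.1 (hS hpb)).1
  have hout : ∀ i, (i < a' ∨ b' < i) → (c i).card = 0 := by
    intro i hi
    rw [Finset.card_eq_zero, Finset.eq_empty_iff_forall_notMem]
    intro j hj
    have h1 : i ∈ A := Finset.mem_image.2 ⟨(i, j), (Finset.mem_filter.1 hj).2, rfl⟩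
    have h2 := A.min'_le _ h1
    have h3 := A.le_max' _ h1
    omega
  -- chords
  have key : ∀ i, ∃ l u : ℝ, (a' ≤ i → i ≤ b' → ((i : ℝ) * h, l) ∈ C ∧ ((i : ℝ) * h, u) ∈ C ∧
      l ≤ u ∧ u ≤ l + 1 ∧ (((c i).card : ℝ) - 1) * h ≤ u - l) := by
    intro i
    by_cases hi : (c i).Nonempty
    · obtain ⟨x, hx⟩ : ∃ x, x = (c i).min' hi := ⟨_, rfl⟩
      obtain ⟨y, hy⟩ : ∃ y, y = (c i).max' hi := ⟨_, rfl⟩
      have hxc : x ∈ c i := hx ▸ (c i).min'_mem hi
      have hyc : y ∈ c i := hy ▸ (c i).max'_mem hi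
      have hxy : x ≤ y := by rw [hx]; exact (c i).min'_le _ hyc
      have hym : y < m := Finset.mem_range.1 (Finset.mem_filter.1 hyc).1
      have hsub : c i ⊆ Finset.Icc x y := fun j hj => Finset.mem_Icc.2
        ⟨by rw [hx]; exact (c i).min'_le _ hj, by rw [hy]; exact (c i).le_max' _ hj⟩
      have h1 := Finset.card_le_card hsub
      rw [Nat.card_Icc] at h1
      have h2 : ((c i).card : ℝ) ≤ y + 1 - x := by
        have : (c i).card + x ≤ y + 1 := by omega
        have : ((c i).card : ℝ) + x ≤ y + 1 := by exact_mod_cast this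
        linarith
      refine ⟨x * h, y * h, fun _ _ => ⟨hSC _ (Finset.mem_filter.1 hxc).2,
        hSC _ (Finset.mem_filter.1 hyc).2, ?_, ?_, ?_⟩⟩
      · have : (x : ℝ) ≤ y := by exact_mod_cast hxy
        nlinarith
      · have h3 : (y : ℝ) ≤ m - 1 := by
          have : y + 1 ≤ m := hym
          have : (y : ℝ) + 1 ≤ m := by exact_mod_cast this
          linarith
        have h4 : (0 : ℝ) ≤ x := by positivity
        nlinarith
      · nlinarith
    · by_cases hi2 : a' ≤ i ∧ i ≤ b'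
      · have hlt : a' < b' := by
          rcases hab.lt_or_eq with h | h
          · exact h
          · exfalso
            apply hi
            have : i = a' := by omega
            rw [this]
            exact ⟨ya, Finset.mem_filter.2 ⟨(Finset.mem_product.1 (hS hpa)).2, hpa⟩⟩
        have hd : (0 : ℝ) < (b' : ℝ) - a' := by
          have : (a' : ℝ) < b' := by exact_mod_cast hlt
          linarith
        have hi3 : (a' : ℝ) ≤ i := by exact_mod_cast hi2.1
        have hi4 : (i : ℝ) ≤ b' := by exact_mod_cast hi2.2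
        have h1 := hC (hSC _ hpa) (hSC _ hpb) (a := ((b' : ℝ) - i) / (b' - a'))
          (b := ((i : ℝ) - a') / (b' - a')) (div_nonneg (by linarith) hd.le)
          (div_nonneg (by linarith) hd.le) (by field_simp; ring)
        refine ⟨((b' : ℝ) - i) / (b' - a') * (ya * h) + ((i : ℝ) - a') / (b' - a') * (yb * h),
          ((b' : ℝ) - i) / (b' - a') * (ya * h) + ((i : ℝ) - a') / (b' - a') * (yb * h),
          fun _ _ => ?_⟩
        have h2 : ((i : ℝ) * h, ((b' : ℝ) - i) / (b' - a') * (ya * h) +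
            ((i : ℝ) - a') / (b' - a') * (yb * h)) ∈ C := by
          convert h1 using 1
          ext
          · simp only [gr, Prod.fst_add, Prod.smul_fst, smul_eq_mul]
            field_simp
            ring
          · simp only [gr, Prod.snd_add, Prod.smul_snd, smul_eq_mul]
        refine ⟨h2, h2, le_rfl, by linarith, ?_⟩
        have h3 : (c i).card = 0 := Finset.card_eq_zero.2 (Finset.not_nonempty_iff_eq_empty.1 hi)
        rw [h3]
        push_cast
        linarith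
      · exact ⟨0, 0, fun h1 h2 => absurd ⟨h1, h2⟩ hi2⟩
  choose l u hlu using key
  have h1 := vol_ge hC hh0 (a := a') (b := b') l u (fun i h1 h2 => (hlu i h1 h2).1)
    (fun i h1 h2 => (hlu i h1 h2).2.1) (fun i h1 h2 => (hlu i h1 h2).2.2.1)
  refine le_trans (ENNReal.ofReal_le_ofReal ?_) h1
  -- the sum
  have hw : ∀ a b : ℕ, a ≤ b → ∀ w : ℕ → ℝ, ∑ i ∈ Finset.Ico a b, h * (w i + w (i + 1)) / 2 =
      h * (∑ i ∈ Finset.Ico a (b + 1), w i) - h * (w a + w b) / 2 := by
    intro a b hab w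
    induction b, hab using Nat.le_induction with
    | base => simp; ring
    | succ b hab ih =>
      rw [Finset.sum_Ico_succ_top hab, ih, Finset.sum_Ico_succ_top (by omega : a ≤ b + 1)]
      ring
  have h2 := hw a' b' hab fun i => u i - l i
  rw [h2]
  have h3 : (∑ i ∈ Finset.Ico a' (b' + 1), (((c i).card : ℝ) - 1) * h) ≤
      ∑ i ∈ Finset.Ico a' (b' + 1), (u i - l i) := by
    refine Finset.sum_le_sum fun i hi => ?_
    rw [Finset.mem_Ico] at hi
    exact (hlu i hi.1 (by omega)).2.2.2.2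
  have h4 : (∑ i ∈ Finset.Ico a' (b' + 1), ((c i).card : ℝ)) = S.card := by
    rw [← hcard]
    push_cast
    refine Finset.sum_subset ?_ ?_
    · intro i hi
      rw [Finset.mem_Ico] at hi
      rw [Finset.mem_range]
      omega
    · intro i _ hi
      rw [Finset.mem_Ico] at hi
      rw [hout i (by omega)]
      simp
  have h5 : (∑ i ∈ Finset.Ico a' (b' + 1), (((c i).card : ℝ) - 1) * h) =
      (S.card - ((b' + 1 - a' : ℕ) : ℝ)) * h := by
    rw [← Finset.sum_mul, Finset.sum_sub_distrib, h4]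
    simp
  have h6 : (((b' + 1 - a' : ℕ) : ℝ)) ≤ m := by
    have : b' + 1 - a' ≤ m := by omega
    exact_mod_cast this
  have h7 := (hlu a' le_rfl hab).2.2.2.1
  have h8 := (hlu b' hab le_rfl).2.2.2.1
  have h9 : (S.card - (m : ℝ)) * h ≤ ∑ i ∈ Finset.Ico a' (b' + 1), (u i - l i) := by
    refine le_trans ?_ (h5 ▸ h3)
    nlinarith
  nlinarith

/-- The area of the convex hull of a finite set of points of the plane. -/
noncomputable def hullArea (S : Finset (ℝ × ℝ)) : ℝ :=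
  (volume (convexHull ℝ (S : Set (ℝ × ℝ)))).toReal

/-- `A'_k(P)`: the smallest area of the convex hull of a `k`-element subset of `P`. -/
noncomputable def minHull (k : ℕ) (P : Finset (ℝ × ℝ)) : ℝ :=
  sInf {a | ∃ S ⊆ P, S.card = k ∧ a = hullArea S}

/-- `Δ'_k(n)`: the supremum of `A'_k(P)` for the sets `P` of `n` points in a rectangle
`[0, d] × [0, 1 / d]`, `0 < d ≤ 1`. -/
noncomputable def Delta (k n : ℕ) : ℝ :=
  sSup {a | ∃ d : ℝ, 0 < d ∧ d ≤ 1 ∧ ∃ P : Finset (ℝ × ℝ),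
    (P : Set (ℝ × ℝ)) ⊆ Icc 0 d ×ˢ Icc 0 d⁻¹ ∧ P.card = n ∧ a = minHull k P}

theorem hullArea_nonneg (S : Finset (ℝ × ℝ)) : 0 ≤ hullArea S := ENNReal.toReal_nonneg

theorem rect_vol {d : ℝ} (hd : 0 < d) :
    volume (Icc (0 : ℝ) d ×ˢ Icc (0 : ℝ) d⁻¹) = 1 := by
  rw [Measure.volume_eq_prod, Measure.prod_prod, Real.volume_Icc, Real.volume_Icc, sub_zero,
    sub_zero, ← ENNReal.ofReal_mul hd.le, mul_inv_cancel₀ hd.ne', ENNReal.ofReal_one]

theorem hull_sub {d : ℝ} {S : Finset (ℝ × ℝ)}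
    (hS : (S : Set (ℝ × ℝ)) ⊆ Icc 0 d ×ˢ Icc 0 d⁻¹) :
    convexHull ℝ (S : Set (ℝ × ℝ)) ⊆ Icc 0 d ×ˢ Icc 0 d⁻¹ :=
  convexHull_min hS ((convex_Icc 0 d).prod (convex_Icc 0 d⁻¹))

theorem hull_vol_le {d : ℝ} (hd : 0 < d) {S : Finset (ℝ × ℝ)}
    (hS : (S : Set (ℝ × ℝ)) ⊆ Icc 0 d ×ˢ Icc 0 d⁻¹) :
    volume (convexHull ℝ (S : Set (ℝ × ℝ))) ≤ 1 :=
  (measure_mono (hull_sub hS)).trans (rect_vol hd).le

theorem bdd {k n : ℕ} (hkn : k ≤ n) : BddAbove {a | ∃ d : ℝ, 0 < d ∧ d ≤ 1 ∧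
    ∃ P : Finset (ℝ × ℝ), (P : Set (ℝ × ℝ)) ⊆ Icc 0 d ×ˢ Icc 0 d⁻¹ ∧ P.card = n ∧
      a = minHull k P} := by
  refine ⟨1, ?_⟩
  rintro a ⟨d, hd0, hd1, P, hP, hn, rfl⟩
  obtain ⟨S, hSP, hS⟩ := Finset.exists_subset_card_eq (hkn.trans hn.ge)
  have h0 : BddBelow {a | ∃ S ⊆ P, S.card = k ∧ a = hullArea S} := by
    refine ⟨0, ?_⟩
    rintro _ ⟨S, -, -, rfl⟩
    exact hullArea_nonneg S
  have h1 : hullArea S ∈ {a | ∃ S ⊆ P, S.card = k ∧ a = hullArea S} := ⟨S, hSP, hS, rfl⟩
  have h2 := hull_vol_le hd0 ((Finset.coe_subset.2 hSP).trans hP)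
  have h3 : hullArea S ≤ 1 :=
    ENNReal.toReal_le_of_le_ofReal zero_le_one (by rwa [ENNReal.ofReal_one])
  exact (csInf_le h0 h1).trans h3

/-- The bound given by the square grids. -/
theorem delta_ge {k n m : ℕ} (hk : 1 ≤ k) (hkn : k ≤ n) (hm : 2 ≤ m) (hn : n ≤ m ^ 2) :
    ((k : ℝ) + 1 - 2 * m) / ((m : ℝ) - 1) ^ 2 ≤ Delta k n := by
  classical
  have hm1 : (0 : ℝ) < m - 1 := by
    have : (2 : ℝ) ≤ m := by exact_mod_cast hm
    linarith
  obtain ⟨h, hh⟩ : ∃ h : ℝ, h = 1 / ((m : ℝ) - 1) := ⟨_, rfl⟩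
  have hh0 : 0 < h := by rw [hh]; positivity
  have hh1 : h * (m - 1) = 1 := by rw [hh]; field_simp
  obtain ⟨G, hG, hGn⟩ := Finset.exists_subset_card_eq
    (s := Finset.range m ×ˢ Finset.range m) (n := n) (by
      rw [Finset.card_product, Finset.card_range]; nlinarith)
  have hcard : (G.image (gr h)).card = n := by
    rw [Finset.card_image_of_injective _ (gr_inj hh0), hGn]
  have hsub : ((G.image (gr h) : Finset (ℝ × ℝ)) : Set (ℝ × ℝ)) ⊆
      Icc 0 1 ×ˢ Icc 0 (1 : ℝ)⁻¹ := by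
    intro p hp
    rw [Finset.mem_coe, Finset.mem_image] at hp
    obtain ⟨⟨i, j⟩, hij, rfl⟩ := hp
    have h1 := Finset.mem_product.1 (hG hij)
    have h2 := Finset.mem_range.1 h1.1
    have h3 := Finset.mem_range.1 h1.2
    simp only at h2 h3
    have h4 : (i : ℝ) ≤ m - 1 := by
      have : (i : ℝ) + 1 ≤ m := by exact_mod_cast h2
      linarith
    have h5 : (j : ℝ) ≤ m - 1 := by
      have : (j : ℝ) + 1 ≤ m := by exact_mod_cast h3
      linarith
    rw [inv_one]
    refine ⟨⟨?_, ?_⟩, ⟨?_, ?_⟩⟩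
    · exact mul_nonneg (by positivity) hh0.le
    · calc (i : ℝ) * h ≤ (m - 1) * h := mul_le_mul_of_nonneg_right h4 hh0.le
        _ = 1 := by rw [mul_comm]; exact hh1
    · exact mul_nonneg (by positivity) hh0.le
    · calc (j : ℝ) * h ≤ (m - 1) * h := mul_le_mul_of_nonneg_right h5 hh0.le
        _ = 1 := by rw [mul_comm]; exact hh1
  refine le_trans ?_ (le_csSup (bdd hkn)
    ⟨1, one_pos, le_rfl, G.image (gr h), hsub, hcard, rfl⟩)
  refine le_csInf ?_ ?_
  · obtain ⟨S, hSP, hS⟩ := Finset.exists_subset_card_eq (hkn.trans hcard.ge)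
    exact ⟨_, S, hSP, hS, rfl⟩
  rintro _ ⟨S, hSP, hSk, rfl⟩
  -- the indices of the points
  obtain ⟨T, hTG, hTS⟩ : ∃ T ⊆ G, T.image (gr h) = S := by
    rw [← Finset.subset_image_iff]
    exact hSP
  have hTk : T.card = k := by
    rw [← hSk, ← hTS, Finset.card_image_of_injective _ (gr_inj hh0)]
  have h1 := hull_ge hm (hTG.trans hG) hh1 (convex_convexHull ℝ (S : Set (ℝ × ℝ)))
    (fun p hp => subset_convexHull ℝ _ (by
      rw [← hTS, Finset.coe_image]
      exact Set.mem_image_of_mem _ hp)) (Finset.card_pos.1 (by omega))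
  have h2 : volume (convexHull ℝ (S : Set (ℝ × ℝ))) ≤ 1 :=
    hull_vol_le one_pos ((Finset.coe_subset.2 hSP).trans hsub)
  have h3 : h ^ 2 * (T.card - m) - h ≤ hullArea S := by
    unfold hullArea
    exact (ENNReal.ofReal_le_iff_le_toReal (ne_top_of_le_ne_top ENNReal.one_ne_top h2)).1 h1
  refine le_trans (le_of_eq ?_) h3
  rw [hTk, hh]
  field_simp
  ring

/-- The size of the grid. -/
theorem exists_size {n : ℕ} (hn : 2 ≤ n) : ∃ q : ℕ, 1 ≤ q ∧ q ^ 2 < n ∧ n ≤ (q + 1) ^ 2 := by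
  refine ⟨Nat.sqrt (n - 1), ?_, ?_, ?_⟩
  · exact Nat.sqrt_pos.2 (by omega)
  · have := Nat.sqrt_le' (n - 1)
    omega
  · have := Nat.succ_le_succ_sqrt' (n - 1)
    omega

theorem delta_nonneg (k n : ℕ) : 0 ≤ Delta k n := by
  refine Real.sSup_nonneg ?_
  rintro _ ⟨d, -, -, P, -, -, rfl⟩
  refine Real.sInf_nonneg ?_
  rintro _ ⟨S, -, -, rfl⟩
  exact hullArea_nonneg S

/-- The bound of `delta_ge`, in terms of the side `q` of the square grid. -/
theorem delta_ge' {α N : ℕ} (hα : 2 ≤ α) (hN : 1 ≤ N) : ∃ q : ℕ, 1 ≤ q ∧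
    ((q : ℝ)) ^ 2 < α * N ∧ ((N : ℝ) - 2 * q) / (q : ℝ) ^ 2 ≤ Delta (N + 1) (α * N) := by
  have h2 : 2 ≤ α * N := by nlinarith
  obtain ⟨q, hq1, hq2, hq3⟩ := exists_size h2
  refine ⟨q, hq1, by exact_mod_cast hq2, ?_⟩
  have h3 := delta_ge (k := N + 1) (n := α * N) (m := q + 1) (by omega) (by nlinarith)
    (by omega) hq3
  refine le_trans (le_of_eq ?_) h3
  push_cast
  congr 1 <;> ring

/-- **The conjecture fails for every `α ≥ 3` and all large `k`**, for example for `α = 3` and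
`k = 109`. More precisely `Δ'_k(α (k - 1)) ≥ 1 / α - 2 / √(α (k - 1))` for all `α ≥ 2` and
`k ≥ 3`, and `Δ'_k(α (k - 1)) > 1 / (2 (α - 1))` if `α ≥ 3` and
`(k - 1) (α - 2) ^ 2 > 16 α (α - 1) ^ 2`. -/
theorem result :
    (∀ α k : ℕ, 2 ≤ α → 3 ≤ k →
      1 / (α : ℝ) - 2 / Real.sqrt (α * ((k : ℝ) - 1)) ≤ Delta k (α * (k - 1))) ∧
    (∀ α k : ℕ, 3 ≤ α → 16 * α * (α - 1) ^ 2 < (k - 1) * (α - 2) ^ 2 →
      1 / (2 * ((α : ℝ) - 1)) < Delta k (α * (k - 1))) ∧
    1 / (2 * ((3 : ℝ) - 1)) < Delta 109 (3 * (109 - 1)) ∧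
    ¬ ∀ k α : ℕ, 3 ≤ k → 2 ≤ α → α ≤ k - 1 →
      Delta k (α * (k - 1)) = 1 / (2 * ((α : ℝ) - 1)) := by
  have key : 1 / (2 * ((3 : ℝ) - 1)) < Delta 109 (3 * (109 - 1)) := by
    have h := delta_ge (k := 109) (n := 3 * (109 - 1)) (m := 18) (by norm_num) (by norm_num)
      (by norm_num) (by norm_num)
    refine lt_of_lt_of_le ?_ h
    norm_num
  refine ⟨?_, ?_, key, ?_⟩
  · intro α k hα hk
    obtain ⟨N, rfl⟩ : ∃ N, k = N + 1 := ⟨k - 1, by omega⟩
    obtain ⟨q, hq1, hq2, hq3⟩ := delta_ge' hα (show 1 ≤ N by omega)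
    rw [Nat.add_sub_cancel]
    push_cast
    rw [add_sub_cancel_right]
    have hα0 : (0 : ℝ) < α := by exact_mod_cast (show 0 < α by omega)
    have hN0 : (0 : ℝ) < N := by exact_mod_cast (show 0 < N by omega)
    have hq0 : (0 : ℝ) < q := by exact_mod_cast (show 0 < q by omega)
    obtain ⟨s, hs⟩ : ∃ s, s = Real.sqrt (α * (N : ℝ)) := ⟨_, rfl⟩
    have hs2 : s ^ 2 = α * N := by rw [hs]; exact Real.sq_sqrt (by positivity)
    have hs0 : 0 < s := by rw [hs]; exact Real.sqrt_pos.2 (by positivity)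
    rw [← hs]
    have h1 : 1 / (α : ℝ) - 2 / s = (N - 2 * s) / s ^ 2 := by
      have : 1 / (α : ℝ) = N / s ^ 2 := by rw [hs2]; field_simp
      rw [this]
      field_simp
    rw [h1]
    have hqs : (q : ℝ) < s := lt_of_pow_lt_pow_left₀ 2 hs0.le (by rw [hs2]; exact hq2)
    rcases le_or_gt (N : ℝ) (2 * s) with h | h
    · exact (div_nonpos_of_nonpos_of_nonneg (by linarith) (by positivity)).trans
        (delta_nonneg _ _)
    · refine le_trans ?_ hq3
      have h2 : (0 : ℝ) < N - 2 * s := by linarith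
      have h3 : (q : ℝ) ^ 2 ≤ s ^ 2 := by nlinarith
      exact div_le_div₀ (by linarith) (by linarith) (by positivity) h3
  · intro α k hα hk
    obtain ⟨N, rfl⟩ : ∃ N, k = N + 1 := by
      refine ⟨k - 1, ?_⟩
      rcases Nat.eq_zero_or_pos k with h | h
      · subst h
        simp at hk
      · omega
    rw [Nat.add_sub_cancel] at hk ⊢
    have hN1 : 1 ≤ N := by
      rcases Nat.eq_zero_or_pos N with h | h
      · subst h
        simp at hk
      · omega
    obtain ⟨q, hq1, hq2, hq3⟩ := delta_ge' (show 2 ≤ α by omega) hN1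
    refine lt_of_lt_of_le ?_ hq3
    obtain ⟨b, rfl⟩ : ∃ b, α = b + 3 := ⟨α - 3, by omega⟩
    have e1 : b + 3 - 1 = b + 2 := by omega
    have e2 : b + 3 - 2 = b + 1 := by omega
    rw [e1, e2] at hk
    have hk' : 16 * ((b : ℝ) + 3) * (b + 2) ^ 2 < N * (b + 1) ^ 2 := by exact_mod_cast hk
    push_cast at hq2 ⊢
    have hb0 : (0 : ℝ) ≤ b := Nat.cast_nonneg b
    have hN0 : (0 : ℝ) < N := by exact_mod_cast (show 0 < N by omega)
    have hq0 : (0 : ℝ) < q := by exact_mod_cast (show 0 < q by omega)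
    have h1 : 4 * ((b : ℝ) + 2) * q < (b + 1) * N := by
      refine lt_of_pow_lt_pow_left₀ 2 (by positivity) ?_
      have h2 : 16 * ((b : ℝ) + 2) ^ 2 * (q : ℝ) ^ 2 < 16 * ((b : ℝ) + 2) ^ 2 * ((b + 3) * N) :=
        mul_lt_mul_of_pos_left hq2 (by positivity)
      have h3 : 16 * ((b : ℝ) + 3) * (b + 2) ^ 2 * N < N * (b + 1) ^ 2 * N :=
        mul_lt_mul_of_pos_right hk' hN0
      nlinarith
    rw [show (b : ℝ) + 3 - 1 = b + 2 by ring, div_lt_div_iff₀ (by positivity) (by positivity)]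
    nlinarith
  · intro h
    have h1 := h 109 3 (by norm_num) (by norm_num) (by norm_num)
    rw [h1] at key
    norm_num at key

end Pool.Agent.Results.MP_6b0309_co.SquareGrids
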